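import Pool.Agent.Y197.LR.Stm

/-!
# Job LR-FAC: factorization through the explored crossing
-/

set_option autoImplicit false

namespace Pool.Agent.Y68.LR

open H974 Finset Pool.Agent.Y197.LR

theorem WW_bd {n : ℤ} {K : Finset Edg} (hK : K ⊆ TBE 0 n 0 n) {w : Vtx} (hw : WW K w) :
    (0 ≤ w.1 ∧ w.1 ≤ n) ∧ (0 ≤ w.2 ∧ w.2 ≤ n) := by
  obtain ⟨⟨x, y, b⟩, he, hc⟩ := hw
  have h1 := hK he
  cases b
  · rw [mem_TBE_false] at h1
    rcases hc with rfl | rfl
    · simp only [src_mk]; omega
    · simp only [tgt_false]; omega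
  · rw [mem_TBE_true] at h1
    rcases hc with rfl | rfl
    · simp only [src_mk]; omega
    · simp only [tgt_true]; omega

/-- the end points of the edges of the strip -/
theorem InS_ends {n : ℤ} {e : Edg} (he : InS n e) :
    (0 ≤ (src e).2 ∧ (src e).2 ≤ n) ∧ (0 ≤ (tgt e).2 ∧ (tgt e).2 ≤ n) := by
  obtain ⟨x, y, b⟩ := e
  unfold InS at he
  cases b
  · simp only [src_mk, tgt_false] at he ⊢; omega
  · simp only [src_mk, tgt_true] at he ⊢; omega

/-- the columns of the end points -/
theorem col_ends (e : Edg) : (src e).1 = e.1 ∧ e.1 ≤ (tgt e).1 ∧ (tgt e).1 ≤ e.1 + 1 := by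
  obtain ⟨x, y, b⟩ := e
  cases b
  · change x = x ∧ x ≤ x ∧ x ≤ x + 1
    omega
  · change x = x ∧ x ≤ x + 1 ∧ x + 1 ≤ x + 1
    omega

/-- vertices to the right are far -/
theorem far_right {n : ℤ} {K : Finset Edg} (hK : K ⊆ TBE 0 n 0 n) {v : Vtx} (h1 : n + 1 ≤ v.1)
    (h2 : 0 ≤ v.2) (h3 : v.2 ≤ n) : Far n K v := by
  refine ⟨(n + 1, v.2), ⟨rfl, h2, h3⟩, ?_⟩
  obtain ⟨x, y⟩ := v
  simp only at h1 h2 h3 ⊢
  have key : ∀ m : ℕ, Reach {e | InS n e ∧ ¬ WW K (src e) ∧ ¬ WW K (tgt e)} (n + 1, y)
      (n + 1 + m, y) := by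
    intro m
    induction m with
    | zero => simpa using Reach.refl _ _
    | succ m ih =>
      refine ih.trans (Adj.reach ⟨(n + 1 + m, y, true), ⟨?_, ?_, ?_⟩, Or.inl ⟨rfl, ?_⟩⟩)
      · unfold InS
        simp only [tgt_true]
        omega
      · intro hw
        have := WW_bd hK hw
        simp only [src_mk] at this
        omega
      · intro hw
        have := WW_bd hK hw
        simp only [tgt_true] at this
        omega
      · simp only [tgt_true]
        push_cast
        ring_nf
  have h4 := key (x - (n + 1)).toNat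
  have h5 : n + 1 + ((x - (n + 1)).toNat : ℤ) = x := by omega
  rw [h5] at h4
  exact h4

/-- far vertices are not end points of explored edges -/
theorem far_not {n : ℤ} {K : Finset Edg} (hK : K ⊆ TBE 0 n 0 n) {v : Vtx} (h : Far n K v) :
    ¬ WW K v := by
  obtain ⟨u, hu, hr⟩ := h
  induction hr with
  | refl =>
    intro hw
    have := WW_bd hK hw
    have h1 := hu.1
    omega
  | tail _ hs _ =>
    obtain ⟨e, ⟨_, he2, he3⟩, hc⟩ := hs
    rcases hc with ⟨_, b⟩ | ⟨a, _⟩
    · rw [← b]; exact he3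
    · rw [← a]; exact he2

/-- far vertices are in positive columns -/
theorem far_col {n : ℤ} (hn : 0 < n) {F : Finset Edg} {v : Vtx} (h : Far n (KK n F) v) :
    1 ≤ v.1 := by
  obtain ⟨u, hu, hr⟩ := h
  induction hr with
  | refl => have h1 := hu.1; omega
  | @tail v w _ hs ih =>
    obtain ⟨e, ⟨he1, he2, he3⟩, hc⟩ := hs
    have h1 := InS_ends he1
    have h2 := col_ends e
    by_contra hcon
    rcases hc with ⟨a, b⟩ | ⟨a, b⟩
    · rw [a] at h1 h2 he2
      rw [b] at h1 h2 he3
      have h3 : w = (0, w.2) := Prod.ext (by simp only; omega) rfl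
      apply he3
      rw [h3]
      exact KK_col hn F _ h1.2.1 h1.2.2
    · rw [a] at h1 h2 he2
      rw [b] at h1 h2 he3
      have h3 : w = (0, w.2) := Prod.ext (by simp only; omega) rfl
      apply he2
      rw [h3]
      exact KK_col hn F _ h1.1.1 h1.1.2

theorem mem_SE {n c c' : ℤ} {e : Edg} (he : e ∈ SE n c c') : c ≤ e.1 ∧ e.1 < c' ∧ InS n e := by
  unfold SE at he
  rw [Finset.mem_filter] at he
  obtain ⟨h1, h2⟩ := he
  obtain ⟨x, y, b⟩ := e
  unfold InS
  cases b
  · rw [mem_RE_false] at h1; simp only [tgt_false] at h2 ⊢; omega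
  · rw [mem_RE_true] at h1; simp only [tgt_true] at h2 ⊢; omega

theorem Bd_RtV {n : ℤ} {K : Finset Edg} (hK : K ⊆ TBE 0 n 0 n) : RtV n 0 (Bd n K) := by
  intro w hw
  have := WW_bd hK hw.1
  omega

/-- the explored edges of a total configuration -/
theorem KK_tot {n : ℤ} {F ω η : Finset Edg} (hF : Rt n (N n) F) (hη : ∀ e ∈ η, e.1 < 0)
    (hn : 1 ≤ n) : ω ∩ KK n ω = ((F ∪ ω) ∪ η) ∩ KK n ω := by
  ext e
  simp only [Finset.mem_inter, Finset.mem_union]
  constructor
  · rintro ⟨h1, h2⟩; exact ⟨Or.inl (Or.inr h1), h2⟩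
  · rintro ⟨(h1 | h1) | h1, h2⟩
    · exfalso
      have h3 := (hF e h1).1
      have h4 := KK_subset n ω h2
      obtain ⟨x, y, b⟩ := e
      unfold N at h3
      cases b
      · rw [mem_TBE_false] at h4; simp only at h3; omega
      · rw [mem_TBE_true] at h4; simp only at h3; omega
    · exact ⟨h1, h2⟩
    · exfalso
      have h3 := hη e h1
      have h4 := KK_subset n ω h2
      obtain ⟨x, y, b⟩ := e
      cases b
      · rw [mem_TBE_false] at h4; simp only at h3; omega
      · rw [mem_TBE_true] at h4; simp only at h3; omega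

open Classical in
/-- the identity for good configurations -/
theorem U_good (hD : S_DEC) {n : ℤ} (hn : 1 ≤ n) {E : Finset Edg} {T : Set Vtx}
    (hE : LS n 0 E T) {S : Set Vtx} {F ω : Finset Edg} (hS : RtV n (N n) S) (hF : Rt n (N n) F)
    (hω : ω ⊆ SE n 0 (N n)) (hg : good n ω) :
    U E T S (F ∪ ω) = ind (Cn S (Bd n (KK n ω)) ((F ∪ ω).filter (EA n (KK n ω)))) *
      U E T (Bd n (KK n ω)) (ω.filter (fun e => ¬ EA n (KK n ω) e)) := by
  unfold U Pr
  rw [← Ex_mul_left]
  apply Ex_congr
  intro η hη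
  have hη0 : ∀ e ∈ η, e.1 < 0 := fun e he => (hE.lt e (hη he)).1
  have hst := KK_tot (ω := ω) hF hη0 hn
  have hK : KK n ((F ∪ ω) ∪ η) = KK n ω := KK_stop hst
  have hg' : good n ((F ∪ ω) ∪ η) := (good_stop hst).1 hg
  have hKs := KK_subset n ω
  have h1 := hD n ((F ∪ ω) ∪ η) (by omega) hg' (by
    intro e he
    rw [Finset.mem_union, Finset.mem_union] at he
    rcases he with (he | he) | he
    · exact (hF e he).2
    · exact (mem_SE (hω he)).2.2
    · exact (hE.lt e (hη he)).2) S T (by
    intro s hs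
    have := hS s hs
    unfold N at this
    omega) (by
    intro t ht
    have := hE.tgt t ht
    omega)
  rw [hK] at h1
  have e1 : ((F ∪ ω) ∪ η).filter (EA n (KK n ω)) = (F ∪ ω).filter (EA n (KK n ω)) := by
    rw [Finset.filter_union, Finset.union_eq_left]
    intro e he
    exfalso
    rw [Finset.mem_filter] at he
    have h2 := hη0 e he.1
    have h3 := col_ends e
    rcases he.2 with h | h
    · have := far_col (by omega) h; omega
    · have := far_col (by omega) h; omega
  have e2 : ((F ∪ ω) ∪ η).filter (fun e => ¬ EA n (KK n ω) e) =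
      ω.filter (fun e => ¬ EA n (KK n ω) e) ∪ η := by
    ext e
    simp only [Finset.mem_filter, Finset.mem_union]
    constructor
    · rintro ⟨(h2 | h2) | h2, h3⟩
      · exfalso
        apply h3
        left
        have h4 := hF e h2
        have h5 := InS_ends h4.2
        have h6 := col_ends e
        have h7 := h4.1
        unfold N at h7
        exact far_right hKs (by omega) h5.1.1 h5.1.2
      · exact Or.inl ⟨h2, h3⟩
      · exact Or.inr h2
    · rintro (⟨h2, h3⟩ | h2)
      · exact ⟨Or.inl (Or.inr h2), h3⟩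
      · refine ⟨Or.inr h2, ?_⟩
        have h4 := hη0 e h2
        have h5 := col_ends e
        rintro (h | h)
        · have := far_col (by omega) h; omega
        · have := far_col (by omega) h; omega
  rw [e1, e2] at h1
  rw [ind_congr h1, ind_and]

theorem Ex_part {W : Finset Edg} (n : ℤ) (h : Finset Edg → ℝ) :
    Ex hf W h = ∑ K ∈ (TBE 0 n 0 n).powerset, Ex hf W (fun ω => ind (KK n ω = K) * h ω) := by
  rw [← Ex_sum]
  apply Ex_congr
  intro ω _
  rw [Finset.sum_eq_single (KK n ω)]
  · rw [ind_of rfl, one_mul]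
  · intro K _ hK
    rw [ind_not_of (Ne.symm hK), zero_mul]
  · intro hK
    exact absurd (Finset.mem_powerset.2 (KK_subset n ω)) hK

theorem U_union {E W F : Finset Edg} {T S : Set Vtx} (hd : Disjoint W E) :
    U (E ∪ W) T S F = Ex hf W (fun ω => U E T S (F ∪ ω)) := by
  unfold U Pr
  rw [Finset.union_comm E W, Ex_union hd]
  apply Ex_congr
  intro ω _
  apply Ex_congr
  intro η _
  change ind (Cn S T (F ∪ (ω ∪ η))) = ind (Cn S T ((F ∪ ω) ∪ η))
  rw [Finset.union_assoc]

open Classical in
theorem main (h1 : S_DEC) (h2 : S_P1) : S_FAC := by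
  obtain ⟨d, hd0, hd⟩ := h2
  refine ⟨d, hd0, ?_⟩
  intro n E E' T T' p q hn hE hE' hpos S F hS hF
  set W := SE n 0 (N n) with hW
  have hWm : ∀ e ∈ W, 0 ≤ e.1 ∧ e.1 < N n ∧ InS n e := fun e he => mem_SE he
  have hdis : ∀ {E : Finset Edg} {T : Set Vtx}, LS n 0 E T → Disjoint W E := by
    intro E T hE
    rw [Finset.disjoint_left]
    intro e he he'
    have h3 := (hWm e he).1
    have h4 := (hE.lt e he').1
    omega
  have hok : Ok hf := fun _ => ⟨by norm_num, by norm_num⟩
  have hS0 : RtV n 0 S := by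
    intro s hs
    have := hS s hs
    unfold N at this
    omega
  have hWRt : ∀ ω : Finset Edg, ω ⊆ W → Rt n 0 (F ∪ ω) := by
    intro ω hω e he
    rw [Finset.mem_union] at he
    rcases he with he | he
    · have := hF e he
      unfold N at this
      exact ⟨by omega, this.2⟩
    · have := hWm e (hω he)
      exact ⟨this.1, this.2.2⟩
  -- the functionals
  let Ψ : Finset Edg → Finset Edg → ℝ := fun K G => p * U E T (Bd n K) G + q * U E' T' (Bd n K) G
  let AK : Finset Edg → Finset Edg → Prop := fun K ω => Cn S (Bd n K) ((F ∪ ω).filter (EA n K))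
  let f2 : Finset Edg → Finset Edg → ℝ := fun K ω =>
    ind (KK n ω = K) * (ind (good n ω) * Ψ K (ω.filter (fun e => ¬ EA n K e)))
  have hf2nn : ∀ K ∈ (TBE 0 n 0 n).powerset, ∀ ω, ω ⊆ W → 0 ≤ f2 K ω := by
    intro K hK ω hω
    refine mul_nonneg (ind_nonneg _) (mul_nonneg (ind_nonneg _) ?_)
    refine hpos _ _ (Bd_RtV (Finset.mem_powerset.1 hK)) ?_
    intro e he
    have := hWm e (hω (Finset.mem_filter.1 he).1)
    exact ⟨this.1, this.2.2⟩
  -- the left side
  have hL : d * aa n S F * (p * Ub n E T + q * Ub n E' T') =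
      ∑ K ∈ (TBE 0 n 0 n).powerset, d * aa n S F * Ex hf W (f2 K) := by
    rw [← Finset.mul_sum]
    congr 1
    have e1 : p * Ub n E T + q * Ub n E' T' = Ex hf W (fun ω => ind (good n ω) *
        Ψ (KK n ω) (ω.filter (fun e => ¬ EA n (KK n ω) e))) := by
      unfold Ub
      rw [← Ex_mul_left, ← Ex_mul_left, ← Ex_add]
      apply Ex_congr
      intro ω _
      simp only [Ψ]
      ring
    rw [e1, Ex_part n]
    refine Finset.sum_congr rfl fun K _ => ?_
    apply Ex_congr
    intro ω _
    simp only [f2]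
    by_cases hK : KK n ω = K
    · rw [hK]
    · rw [ind_not_of hK, zero_mul, zero_mul]
  -- the right side
  have hR : Ex hf W (fun ω => ind (good n ω) * (p * U E T S (F ∪ ω) + q * U E' T' S (F ∪ ω))) ≤
      p * U (E ∪ W) T S F + q * U (E' ∪ W) T' S F := by
    rw [U_union (hdis hE), U_union (hdis hE'), ← Ex_mul_left, ← Ex_mul_left, ← Ex_add]
    apply Ex_mono hok
    intro ω hω
    have h3 := hpos S (F ∪ ω) hS0 (hWRt ω hω)
    exact mul_le_of_le_one_left h3 (ind_le_one _)
  refine le_trans ?_ hR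
  rw [hL]
  have hR2 : Ex hf W (fun ω => ind (good n ω) * (p * U E T S (F ∪ ω) + q * U E' T' S (F ∪ ω))) =
      ∑ K ∈ (TBE 0 n 0 n).powerset, Ex hf W (fun ω => ind (AK K ω) * f2 K ω) := by
    rw [Ex_part n]
    refine Finset.sum_congr rfl fun K _ => ?_
    apply Ex_congr
    intro ω hω
    simp only [f2]
    by_cases hK : KK n ω = K
    · subst hK
      by_cases hg : good n ω
      · rw [U_good h1 hn hE hS hF hω hg, U_good h1 hn hE' hS hF hω hg]
        simp only [AK, Ψ]
        ring
      · rw [ind_not_of hg]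
        ring
    · rw [ind_not_of hK]
      ring
  rw [hR2]
  apply Finset.sum_le_sum
  intro K hK
  have hKs := Finset.mem_powerset.1 hK
  by_cases hex : ∃ ω, ω ⊆ W ∧ KK n ω = K ∧ good n ω
  · obtain ⟨F0, hF0, hF0K, hF0g⟩ := hex
    have h3 := hd n F0 hn hF0g S F hS hF
    rw [hF0K] at h3
    have hKEA : ∀ e ∈ K, ¬ EA n K e := by
      intro e he
      rintro (h | h)
      · exact far_not hKs h ⟨e, he, Or.inl rfl⟩
      · exact far_not hKs h ⟨e, he, Or.inr rfl⟩
    have hind : Ex hf W (fun ω => ind (AK K ω) * f2 K ω) =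
        Ex hf W (fun ω => ind (AK K ω)) * Ex hf W (f2 K) := by
      refine Ex_mul_indep (S := W.filter (EA n K)) (T := W.filter (fun e => ¬ EA n K e))
        (Finset.filter_subset _ _) (Finset.filter_subset _ _) ?_ ?_ ?_
      · rw [Finset.disjoint_left]
        intro e he he'
        exact (Finset.mem_filter.1 he').2 (Finset.mem_filter.1 he).2
      · intro ω hω
        simp only [AK]
        congr 2
        ext e
        simp only [Finset.mem_filter, Finset.mem_union, Finset.mem_inter]
        constructor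
        · rintro ⟨h4 | h4, h5⟩
          · exact ⟨Or.inl h4, h5⟩
          · exact ⟨Or.inr ⟨h4, hω h4, h5⟩, h5⟩
        · rintro ⟨h4 | h4, h5⟩
          · exact ⟨Or.inl h4, h5⟩
          · exact ⟨Or.inr h4.1, h5⟩
      · intro ω hω
        have hcap : ω ∩ K = (ω ∩ W.filter (fun e => ¬ EA n K e)) ∩ K := by
          ext e
          simp only [Finset.mem_filter, Finset.mem_inter]
          constructor
          · rintro ⟨h4, h5⟩
            exact ⟨⟨h4, hω h4, hKEA e h5⟩, h5⟩
          · rintro ⟨⟨h4, -⟩, h5⟩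
            exact ⟨h4, h5⟩
        have hfil : (ω ∩ W.filter (fun e => ¬ EA n K e)).filter (fun e => ¬ EA n K e) =
            ω.filter (fun e => ¬ EA n K e) := by
          ext e
          simp only [Finset.mem_filter, Finset.mem_inter]
          constructor
          · rintro ⟨⟨h4, -⟩, h5⟩
            exact ⟨h4, h5⟩
          · rintro ⟨h4, h5⟩
            exact ⟨⟨h4, hω h4, h5⟩, h5⟩
        have hto : KK n ω = K → KK n (ω ∩ W.filter (fun e => ¬ EA n K e)) = K := by
          intro h4
          have h5 : ω ∩ KK n ω = (ω ∩ W.filter (fun e => ¬ EA n K e)) ∩ KK n ω := by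
            rw [h4]; exact hcap
          rw [KK_stop h5, h4]
        have hfrom : KK n (ω ∩ W.filter (fun e => ¬ EA n K e)) = K → KK n ω = K := by
          intro h4
          have h5 : (ω ∩ W.filter (fun e => ¬ EA n K e)) ∩
              KK n (ω ∩ W.filter (fun e => ¬ EA n K e)) =
              ω ∩ KK n (ω ∩ W.filter (fun e => ¬ EA n K e)) := by
            rw [h4]; exact hcap.symm
          rw [KK_stop h5, h4]
        simp only [f2]
        by_cases hK' : KK n ω = K
        · have h5 : ω ∩ KK n ω = (ω ∩ W.filter (fun e => ¬ EA n K e)) ∩ KK n ω := by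
            rw [hK']; exact hcap
          rw [ind_of hK', ind_of (hto hK'), hfil, ind_congr (good_stop h5)]
        · rw [ind_not_of hK', ind_not_of (fun h => hK' (hfrom h)), zero_mul, zero_mul]
    rw [hind]
    exact mul_le_mul_of_nonneg_right h3 (Ex_nonneg hok (hf2nn K hK))
  · have h4 : ∀ ω, ω ⊆ W → f2 K ω = 0 := by
      intro ω hω
      simp only [f2]
      by_cases hK' : KK n ω = K
      · by_cases hg : good n ω
        · exact absurd ⟨ω, hω, hK', hg⟩ hex
        · rw [ind_not_of hg]; ring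
      · rw [ind_not_of hK']; ring
    have e1 : Ex hf W (f2 K) = 0 := by
      rw [Ex_congr h4, Ex_const]
    have e2 : Ex hf W (fun ω => ind (AK K ω) * f2 K ω) = 0 := by
      rw [Ex_congr (g := fun _ => (0 : ℝ)) (fun ω hω => by rw [h4 ω hω, mul_zero]), Ex_const]
    rw [e1, e2, mul_zero]

end Pool.Agent.Y68.LR
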